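import Mathlib
import Pool.Agent.H21.PellDef

namespace Pool.Agent.Results.MP_c624c9_nt.Counter

open Pool.Agent.H21.Pell

def cq : ℕ → ℕ → ℕ → ℚ
  | 0, m, d => ((m + 19) / d : ℕ)
  | n + 1, m, d => ((m + 19) / d : ℕ) +
      (cq n (d * ((m + 19) / d) - m) ((375 - (d * ((m + 19) / d) - m) ^ 2) / d))⁻¹

def ok : ℕ → ℕ → ℕ → Bool
  | 0, _, d => 0 < d
  | n + 1, m, d => 0 < d && m ≤ d * ((m + 19) / d) && (d * ((m + 19) / d) - m) ^ 2 < 375 &&
      d ∣ 375 - (d * ((m + 19) / d) - m) ^ 2 &&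
      ok n (d * ((m + 19) / d) - m) ((375 - (d * ((m + 19) / d) - m) ^ 2) / d)

theorem fl (m d : ℕ) : ⌊((m : ℝ) + √375) / d⌋ = ((m + 19) / d : ℕ) := by
  have h : ⌊√375⌋₊ = 19 := by
    rw [Nat.floor_eq_iff (by positivity)]
    exact ⟨Real.le_sqrt_of_sq_le (by norm_num), Real.sqrt_lt_sqrt (by norm_num)
      (by norm_num : (375 : ℝ) < 400) |>.trans_eq (by
        rw [show (400 : ℝ) = 20 ^ 2 by norm_num, Real.sqrt_sq (by norm_num)]; norm_num)⟩
  rw [← Int.natCast_floor_eq_floor (by positivity), Nat.floor_div_natCast, add_comm,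
    Nat.floor_add_natCast (by positivity), h, add_comm]

theorem key (n m d : ℕ) (h : ok n m d = true) :
    Real.convergent (((m : ℝ) + √375) / d) n = cq n m d := by
  induction n generalizing m d with
  | zero => rw [Real.convergent_zero, fl, cq, Int.cast_natCast]
  | succ n ih =>
    simp only [ok, Bool.and_eq_true, decide_eq_true_eq] at h
    obtain ⟨⟨⟨⟨h1, h2⟩, h3⟩, h4⟩, h5⟩ := h
    rw [Real.convergent_succ, cq, ← ih _ _ h5, fl, Int.cast_natCast, Int.fract, fl]
    congr 3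
    generalize (m + 19) / d = a at *
    obtain ⟨e, he⟩ := h4
    rw [he, Nat.mul_div_cancel_left _ h1]
    have h6 : (375 : ℝ) - (d * a - m) ^ 2 = d * e := by
      have := congrArg (Nat.cast : ℕ → ℝ) he
      push_cast [h2, h3.le] at this
      exact this
    have h7 : (0 : ℝ) < d := by exact_mod_cast h1
    have h8 : √375 ^ 2 = (375 : ℝ) := Real.sq_sqrt (by norm_num)
    have h9 : (e : ℝ) ≠ 0 := by
      rintro h
      have : e = 0 := by exact_mod_cast h
      subst this; omega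
    push_cast [h2]
    refine inv_eq_of_mul_eq_one_right ?_
    field_simp
    linear_combination h8 + h6

theorem cvg_eq (i : ℕ) (h : ok i 0 1 = true) : cvg 375 i = cq i 0 1 := by
  simpa [cvg] using key i 0 1 h

instance (k : ℕ) (x : ℚ) : Decidable (Pellian k x) := by unfold Pellian; infer_instance

theorem result : ∃ k i n j : ℕ, 0 < k ∧ ¬ IsSquare k ∧
    IsLeast {i | RInt k (cvg k i)} i ∧
    IsLeast {n | Pellian k (orbit k (cvg k i) n)} n ∧
    IsLeast {j | Pellian k (cvg k j)} j ∧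
    orbit k (cvg k i) n ≠ cvg k j := by
  have c : ∀ i < 10, cvg 375 i = cq i 0 1 := fun i hi =>
    cvg_eq i ((by decide +kernel : ∀ i < 10, ok i 0 1 = true) i hi)
  refine ⟨375, 3, 4, 9, by norm_num, by decide +kernel, ⟨⟨-3844, ?_⟩, fun i hi => ?_⟩,
    ⟨?_, fun n hn => ?_⟩, ⟨?_, fun j hj => ?_⟩, ?_⟩
  · rw [c 3 (by norm_num)]; decide +kernel
  · by_contra h
    obtain ⟨z, hz⟩ := hi
    rw [c i (by omega)] at hz
    have := congrArg Rat.den hz
    rw [Rat.den_intCast] at this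
    exact (by decide +kernel : ∀ i < 3,
      (4 * cq i 0 1 ^ 2 / ((375 : ℕ) - cq i 0 1 ^ 2)).den ≠ 1) i (by omega) this
  · rw [Set.mem_setOf_eq, c 3 (by norm_num)]; decide +kernel
  · by_contra h
    rw [Set.mem_setOf_eq, c 3 (by norm_num)] at hn
    exact (by decide +kernel : ∀ n < 4, ¬ Pellian 375 (orbit 375 (cq 3 0 1) n)) n (by omega) hn
  · rw [Set.mem_setOf_eq, c 9 (by norm_num)]; decide +kernel
  · by_contra h
    rw [Set.mem_setOf_eq, c j (by omega)] at hj
    exact (by decide +kernel : ∀ j < 9, ¬ Pellian 375 (cq j 0 1)) j (by omega) hj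
  · rw [c 3 (by norm_num), c 9 (by norm_num)]; decide +kernel

end Pool.Agent.Results.MP_c624c9_nt.Counter
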